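import Pool.Agent.U722.FF.Stm2
import Pool.Agent.U928.FFP.EX

set_option autoImplicit false
set_option linter.unusedSectionVars false

/-! Project FS, package FREE1: free actions on trees with finitely many orbits give free resolutions of length one. -/

namespace Pool.Agent.U460.FSP

open TH57.FF U722.FF MulAction

section free

variable {G X : Type} [Group G] [MulAction G X]

/-- the representative of the orbit -/
noncomputable def rp (ω : orbitRel.Quotient G X) : X := Quotient.out ω

theorem mk_rp (ω : orbitRel.Quotient G X) : (Quotient.mk'' (rp ω) : orbitRel.Quotient G X) = ω :=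
  Quotient.out_eq' ω

theorem exists_rp (x : X) : ∃ g : G, g • rp (Quotient.mk'' x : orbitRel.Quotient G X) = x := by
  have h : (Quotient.mk'' x : orbitRel.Quotient G X) =
      Quotient.mk'' (rp (Quotient.mk'' x : orbitRel.Quotient G X)) := (mk_rp _).symm
  have h2 : (orbitRel G X) x (rp (Quotient.mk'' x : orbitRel.Quotient G X)) := Quotient.eq''.1 h
  rw [orbitRel_apply] at h2
  exact h2

theorem mk_smul (g : G) (x : X) :
    (Quotient.mk'' (g • x) : orbitRel.Quotient G X) = Quotient.mk'' x := by
  apply Quotient.eq''.2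
  change (orbitRel G X) (g • x) x
  rw [orbitRel_apply]
  exact ⟨g, rfl⟩

/-- the element of the group which moves the representative to the point -/
noncomputable def ga (x : X) : G := (exists_rp x).choose

theorem ga_spec (x : X) : (ga x : G) • rp (Quotient.mk'' x : orbitRel.Quotient G X) = x :=
  (exists_rp x).choose_spec

theorem free_eq (hst : ∀ x : X, Subsingleton ↥(stabilizer G x)) {x : X} {g h : G}
    (e : g • x = h • x) : g = h := by
  have h1 : (h⁻¹ * g) ∈ stabilizer G x := by
    rw [mem_stabilizer_iff, mul_smul, e, inv_smul_smul]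
  have h2 : (⟨h⁻¹ * g, h1⟩ : stabilizer G x) = 1 := (hst x).elim _ _
  have h3 : h⁻¹ * g = 1 := congrArg Subtype.val h2
  exact (inv_mul_eq_one.1 h3).symm

theorem ga_smul (hst : ∀ x : X, Subsingleton ↥(stabilizer G x)) (g : G)
    (ω : orbitRel.Quotient G X) : (ga (g • rp ω) : G) = g := by
  have h1 := ga_spec (G := G) (g • rp ω)
  rw [mk_smul, mk_rp] at h1
  exact free_eq hst h1

/-- from the free module -/
noncomputable def phi (G X : Type) [Group G] [MulAction G X] :
    (orbitRel.Quotient G X →₀ MonoidAlgebra ℤ G) →ₗ[MonoidAlgebra ℤ G] PM G X :=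
  Finsupp.linearCombination (MonoidAlgebra ℤ G) (fun ω => pt G (rp ω))

/-- to the free module -/
noncomputable def psi (G X : Type) [Group G] [MulAction G X] :
    PM G X →+ (orbitRel.Quotient G X →₀ MonoidAlgebra ℤ G) :=
  PMadd G (fun x => Finsupp.single (Quotient.mk'' x) (MonoidAlgebra.of ℤ G (ga x)))

theorem phi_single (ω : orbitRel.Quotient G X) (r : MonoidAlgebra ℤ G) :
    phi G X (Finsupp.single ω r) = r • pt G (rp ω) :=
  Finsupp.linearCombination_single _ _ _

theorem psi_pt (x : X) : psi G X (pt G x) =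
    Finsupp.single (Quotient.mk'' x) (MonoidAlgebra.of ℤ G (ga x)) :=
  PMadd_pt _ _

theorem phi_psi (m : PM G X) : phi G X (psi G X m) = m := by
  induction m using PM_induction with
  | h0 => rw [map_zero, map_zero]
  | h1 x => rw [psi_pt, phi_single, of_smul_pt, ga_spec]
  | h2 a b ha hb => rw [map_add, map_add, ha, hb]
  | h3 a ha => rw [map_neg, map_neg, ha]

theorem psi_phi (hst : ∀ x : X, Subsingleton ↥(stabilizer G x))
    (z : orbitRel.Quotient G X →₀ MonoidAlgebra ℤ G) : psi G X (phi G X z) = z := by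
  induction z using Finsupp.induction_linear with
  | zero => rw [map_zero, map_zero]
  | add a b ha hb => rw [map_add, map_add, ha, hb]
  | single ω r =>
    rw [phi_single]
    induction r using MonoidAlgebra.induction_on with
    | of g => rw [of_smul_pt, psi_pt, mk_smul, mk_rp, ga_smul hst]
    | add a b ha hb => rw [add_smul, map_add, ha, hb, Finsupp.single_add]
    | smul n a ha =>
      rw [smul_assoc, map_zsmul, ha]
      exact (Finsupp.smul_single n ω a)

theorem free_fin (hst : ∀ x : X, Subsingleton ↥(stabilizer G x)) (hX : FinOrb G X) :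
    Module.Finite (MonoidAlgebra ℤ G) (PM G X) ∧ Module.Free (MonoidAlgebra ℤ G) (PM G X) := by
  let e : (orbitRel.Quotient G X →₀ MonoidAlgebra ℤ G) ≃ₗ[MonoidAlgebra ℤ G] PM G X :=
    LinearEquiv.ofBijective (phi G X)
      ⟨fun a b h => by rw [← psi_phi hst a, ← psi_phi hst b, h], fun m => ⟨_, phi_psi m⟩⟩
  haveI : Finite (orbitRel.Quotient G X) := by
    obtain ⟨S, hS⟩ := hX
    refine Finite.of_surjective (fun x : S => (Quotient.mk'' (x : X) : orbitRel.Quotient G X)) ?_
    intro ω
    induction ω using Quotient.inductionOn' with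
    | h y =>
      obtain ⟨g, x, hx, hxy⟩ := hS y
      refine ⟨⟨x, hx⟩, ?_⟩
      rw [← hxy]
      exact (mk_smul g x).symm
  exact ⟨Module.Finite.equiv e, Module.Free.of_equiv e⟩

end free

theorem FR_one {R : Type} [Ring R] {A B C : Type} [AddCommGroup A] [Module R A]
    [AddCommGroup B] [Module R B] [AddCommGroup C] [Module R C] (f : A →ₗ[R] B) (g : B →ₗ[R] C)
    (hf : Function.Injective f) (hg : Function.Surjective g)
    (hex : ∀ b, g b = 0 ↔ b ∈ LinearMap.range f)
    (hA : Module.Finite R A ∧ Module.Free R A) (hB : Module.Finite R B ∧ Module.Free R B) :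
    FR R 1 C := by
  obtain ⟨b1, b2⟩ := hB
  let b := Module.Free.chooseBasis R B
  let e := b.equivFun.symm
  refine ⟨Module.Free.ChooseBasisIndex R B, inferInstance, g ∘ₗ e.toLinearMap,
    hg.comp e.surjective, ?_⟩
  have hmem : ∀ a : A, e.symm (f a) ∈ LinearMap.ker (g ∘ₗ e.toLinearMap) := by
    intro a
    rw [LinearMap.mem_ker]
    change g (e (e.symm (f a))) = 0
    rw [LinearEquiv.apply_symm_apply]
    exact (hex _).2 ⟨a, rfl⟩
  let F : A →ₗ[R] LinearMap.ker (g ∘ₗ e.toLinearMap) :=
    LinearMap.codRestrict _ (e.symm.toLinearMap ∘ₗ f) hmem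
  have hF : Function.Bijective F := by
    constructor
    · intro x y h
      have h1 : e.symm (f x) = e.symm (f y) := congrArg Subtype.val h
      exact hf (e.symm.injective h1)
    · rintro ⟨z, hz⟩
      rw [LinearMap.mem_ker] at hz
      obtain ⟨a, ha⟩ := (hex (e z)).1 hz
      refine ⟨a, ?_⟩
      apply Subtype.ext
      change e.symm (f a) = z
      rw [ha, LinearEquiv.symm_apply_apply]
  exact FR_equiv 0 (LinearEquiv.ofBijective F hF) hA

theorem t_FREE1 : S_FREE1 := by
  rintro G _ ⟨V, E, i1, i2, T, s, t, hT, hOE, hV, hE, hsV, hsE⟩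
  obtain ⟨f, g, hf, hg, hex⟩ := Pool.Agent.U928.FFP.t_EX G V E T s t hT hOE
  exact FR_one f g hf hg hex (free_fin hsE hE) (free_fin hsV hV)

end Pool.Agent.U460.FSP
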